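import Pool.Agent.J6H9.EX.Stm2

/-!
# Project EX, module EX-POS: one can take positive weights
-/

set_option autoImplicit false

namespace Pool.Agent.J6H66.EX

open Filter Topology Pool.Agent.J6H9.EU

theorem half_sum (s : Finset ℕ) : 0 ≤ ∑ i ∈ s, (1 / 2 : ℝ) ^ i ∧ ∑ i ∈ s, (1 / 2 : ℝ) ^ i ≤ 2 := by
  refine ⟨Finset.sum_nonneg fun i _ => by positivity, ?_⟩
  calc ∑ i ∈ s, (1 / 2 : ℝ) ^ i ≤ ∑' i : ℕ, (1 / 2 : ℝ) ^ i :=
        Summable.sum_le_tsum s (fun i _ => by positivity) summable_geometric_two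
    _ = 2 := tsum_geometric_two

theorem main : Pool.Agent.J6H9.EX.S_POS := by
  intro f hf hF hs
  classical
  have hsum : ∀ s : Finset ℕ, ∑ i ∈ s, (f i + (1 / 2 : ℝ) ^ i) =
      ∑ i ∈ s, f i + ∑ i ∈ s, (1 / 2 : ℝ) ^ i := fun s => Finset.sum_add_distrib
  have hF0 : ∀ s : Finset ℕ, 0 ≤ ∑ i ∈ s, f i := fun s => Finset.sum_nonneg fun i _ => hf i
  have hG : Tendsto (fun n => ∑ i ∈ Finset.range n, (f i + (1 / 2 : ℝ) ^ i)) atTop atTop := by
    refine tendsto_atTop_mono (fun n => ?_) hF
    rw [hsum]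
    have := (half_sum (Finset.range n)).1
    linarith
  refine ⟨fun n => f n + (1 / 2) ^ n, fun n => ?_, hG, ?_, ?_⟩
  · have h1 := hf n
    have h2 : (0 : ℝ) < (1 / 2) ^ n := by positivity
    linarith
  · have hz : Tendsto (fun n : ℕ => f n / ∑ i ∈ Finset.range (n + 1), f i + (1 / 2 : ℝ) ^ n) atTop
        (𝓝 0) := by
      have h2 : Tendsto (fun n : ℕ => (1 / 2 : ℝ) ^ n) atTop (𝓝 0) :=
        tendsto_pow_atTop_nhds_zero_of_lt_one (by norm_num) (by norm_num)
      simpa using hs.add h2
    refine squeeze_zero (fun n => ?_) (fun n => ?_) hz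
    · have h1 : 0 ≤ ∑ i ∈ Finset.range (n + 1), (f i + (1 / 2 : ℝ) ^ i) := by
        rw [hsum]
        exact add_nonneg (hF0 _) (half_sum _).1
      have h2 : 0 ≤ f n + (1 / 2 : ℝ) ^ n := add_nonneg (hf n) (by positivity)
      positivity
    · have h0 : (1 : ℝ) ≤ ∑ i ∈ Finset.range (n + 1), (1 / 2 : ℝ) ^ i := by
        rw [Finset.sum_range_succ']
        have := (half_sum (Finset.range n)).1
        have h3 : 0 ≤ ∑ k ∈ Finset.range n, (1 / 2 : ℝ) ^ (k + 1) :=
          Finset.sum_nonneg fun i _ => by positivity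
        simp only [pow_zero]
        linarith
      have hFn := hF0 (Finset.range (n + 1))
      have hfn : f n ≤ ∑ i ∈ Finset.range (n + 1), f i :=
        Finset.single_le_sum (fun i _ => hf i) (Finset.self_mem_range_succ n)
      rw [hsum, add_div]
      refine add_le_add ?_ ?_
      · rcases hFn.eq_or_lt with h | h
        · have : f n = 0 := le_antisymm (by linarith) (hf n)
          simp [this]
        · exact div_le_div_of_nonneg_left (hf n) h (by linarith)
      · refine div_le_self (by positivity) (by linarith)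
  · have key : ∀ A : Set ℕ, Tendsto (fun n =>
        (∑ i ∈ (Finset.range n).filter (· ∈ A), f i) / ∑ i ∈ Finset.range n, f i -
        (∑ i ∈ (Finset.range n).filter (· ∈ A), (f i + (1 / 2 : ℝ) ^ i)) /
          ∑ i ∈ Finset.range n, (f i + (1 / 2 : ℝ) ^ i)) atTop (𝓝 0) := by
      intro A
      have h4 : Tendsto (fun n => 4 / ∑ i ∈ Finset.range n, f i) atTop (𝓝 0) :=
        hF.const_div_atTop 4
      refine squeeze_zero_norm' ?_ h4
      filter_upwards [hF.eventually_gt_atTop 0] with n hn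
      have ha : ∑ i ∈ (Finset.range n).filter (· ∈ A), f i ≤ ∑ i ∈ Finset.range n, f i :=
        Finset.sum_le_sum_of_subset_of_nonneg (Finset.filter_subset _ _) fun i _ _ => hf i
      have ha0 := hF0 ((Finset.range n).filter (· ∈ A))
      have hP := half_sum (Finset.range n)
      have hp := half_sum ((Finset.range n).filter (· ∈ A))
      rw [hsum, hsum]
      generalize ∑ i ∈ (Finset.range n).filter (· ∈ A), f i = a at *
      generalize ∑ i ∈ Finset.range n, f i = F at *
      generalize ∑ i ∈ (Finset.range n).filter (· ∈ A), (1 / 2 : ℝ) ^ i = p at *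
      generalize ∑ i ∈ Finset.range n, (1 / 2 : ℝ) ^ i = P at *
      have hFP : 0 < F + P := by linarith [hP.1]
      rw [div_sub_div _ _ hn.ne' hFP.ne', Real.norm_eq_abs, abs_div, abs_of_pos (mul_pos hn hFP),
        div_le_div_iff₀ (mul_pos hn hFP) hn]
      have h5 : |a * (F + P) - F * (a + p)| ≤ 4 * (F + P) := by
        have h6 : a * (F + P) - F * (a + p) = a * P - F * p := by ring
        rw [h6, abs_le]
        constructor
        · nlinarith [mul_nonneg ha0 hP.1, mul_nonneg hn.le (sub_nonneg.2 hp.2), hP.1]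
        · nlinarith [mul_nonneg (sub_nonneg.2 ha) hP.1, mul_nonneg hn.le (sub_nonneg.2 hP.2),
            mul_nonneg hn.le hp.1, hP.1]
      nlinarith
    ext A
    have hk := key A
    constructor
    · intro h
      have h1 : Tendsto (fun n => (∑ i ∈ (Finset.range n).filter (· ∈ A), f i) /
        ∑ i ∈ Finset.range n, f i) atTop (𝓝 0) := h
      have h2 := h1.sub hk
      have h3 : Tendsto (fun n => (∑ i ∈ (Finset.range n).filter (· ∈ A), (f i + (1 / 2 : ℝ) ^ i)) /
          ∑ i ∈ Finset.range n, (f i + (1 / 2 : ℝ) ^ i)) atTop (𝓝 0) := by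
        simpa using h2
      exact h3
    · intro h
      have h1 : Tendsto (fun n => (∑ i ∈ (Finset.range n).filter (· ∈ A),
        (f i + (1 / 2 : ℝ) ^ i)) / ∑ i ∈ Finset.range n, (f i + (1 / 2 : ℝ) ^ i)) atTop (𝓝 0) := h
      have h2 := h1.add hk
      have h3 : Tendsto (fun n => (∑ i ∈ (Finset.range n).filter (· ∈ A), f i) /
        ∑ i ∈ Finset.range n, f i) atTop (𝓝 0) := by
        simpa using h2
      exact h3

end Pool.Agent.J6H66.EX
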